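import Pool.Agent.NH97.ERW.Final

set_option autoImplicit false

/-!
There is an identically piled, uniformly elliptic cookie environment with `μ = θ = 1` whose excited
random walk is right transient.
-/

namespace Pool.Agent.Results.MP_758450_pr.RightTransient

open MeasureTheory Filter Topology Pool.Agent.NH97.ERW

/-- There is a uniformly elliptic identically piled environment `p` such that
* almost surely the trials contain infinitely many failures, and every `U(x)` is square integrable;
* `E[U(x)] / x → 1`, that is `μ` exists and equals `1`;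
* `ρ(x) → 1`, `ν(x) → 2` and `θ(x) → 1`, that is `θ` exists and equals `1`;
* an excited random walk in the environment `p` exists, and every excited random walk in the
  environment `p` satisfies `X n → +∞` almost surely. -/
theorem result : ∃ p : Env, UniformlyElliptic p ∧
    (∀ᵐ b ∂(trials p), ∀ m : ℕ, ∃ i, m ≤ i ∧ b i = false) ∧
    (∀ x : ℕ, Integrable (fun b => (U x b : ℝ) ^ 2) (trials p)) ∧
    Tendsto (fun x : ℕ => meanU p x / x) atTop (𝓝 1) ∧
    Tendsto (rho p 1) atTop (𝓝 1) ∧
    Tendsto (nu p 1) atTop (𝓝 2) ∧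
    Tendsto (theta p 1) atTop (𝓝 1) ∧
    (∃ (Ω : Type) (_ : MeasurableSpace Ω) (P : Measure Ω) (_ : IsProbabilityMeasure P)
      (X : ℕ → Ω → ℤ), IsERW p P X) ∧
    ∀ (Ω : Type) [MeasurableSpace Ω] (P : Measure Ω) [IsProbabilityMeasure P] (X : ℕ → Ω → ℤ),
      IsERW p P X → ∀ᵐ ω ∂P, Tendsto (fun n => X n ω) atTop atTop := by
  obtain ⟨h1, h2, h3, h4, h5⟩ := moments_pC
  refine ⟨pC, pC_elliptic, ?_, h1, h2, h3, h4, h5, ?_, ?_⟩
  · filter_upwards [hg_pC] with b hb m
    exact good_exists hb m
  · exact ⟨ℤ → ℕ → Bool, inferInstance, MM pC, inferInstance, fun n ξ => WW ξ n, isERW_WW pC⟩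
  · intro Ω _ P _ X hX
    exact erw_transient P X hX

end Pool.Agent.Results.MP_758450_pr.RightTransient
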